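import Mathlib

/-!
# Perfect centreless groups with small conjugacy classes

Groups of block matrices `[1, u, z, w; 0, h, v, y; 0, 0, 1, r; 0, 0, 0, h]` over the field with five
elements, where `h` lies in `SL₂`.
-/

set_option linter.style.longLine false
set_option linter.unusedSectionVars false
set_option linter.unusedSimpArgs false

namespace Pool.Agent.H159B.BFC

open Matrix

instance : Fact (Nat.Prime 5) := ⟨by norm_num⟩

/-- the field with five elements -/
abbrev F : Type := ZMod 5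

/-- the group `SL₂` -/
abbrev SL : Type := Matrix.SpecialLinearGroup (Fin 2) F

/-- the block matrices -/
@[ext]
structure B (m : ℕ) where
  h : SL
  u : Matrix (Fin m) (Fin 2) F
  z : Matrix (Fin m) (Fin m) F
  w : Matrix (Fin m) (Fin 2) F
  v : Matrix (Fin 2) (Fin m) F
  y : Matrix (Fin 2) (Fin 2) F
  r : Matrix (Fin m) (Fin 2) F

variable {m : ℕ}

instance : Mul (B m) where
  mul X X' := {
    h := X.h * X'.h
    u := X'.u + X.u * (X'.h : Matrix (Fin 2) (Fin 2) F)
    z := X'.z + X.u * X'.v + X.z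
    w := X'.w + X.u * X'.y + X.z * X'.r + X.w * (X'.h : Matrix (Fin 2) (Fin 2) F)
    v := (X.h : Matrix (Fin 2) (Fin 2) F) * X'.v + X.v
    y := (X.h : Matrix (Fin 2) (Fin 2) F) * X'.y + X.v * X'.r + X.y * (X'.h : Matrix (Fin 2) (Fin 2) F)
    r := X'.r + X.r * (X'.h : Matrix (Fin 2) (Fin 2) F) }

instance : One (B m) where
  one := { h := 1, u := 0, z := 0, w := 0, v := 0, y := 0, r := 0 }

instance : Inv (B m) where
  inv X := {
    h := X.h⁻¹
    u := - (X.u * ((X.h⁻¹ : SL) : Matrix (Fin 2) (Fin 2) F))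
    z := - X.z + X.u * ((X.h⁻¹ : SL) : Matrix (Fin 2) (Fin 2) F) * X.v
    w := - X.w * ((X.h⁻¹ : SL) : Matrix (Fin 2) (Fin 2) F)
        + X.z * X.r * ((X.h⁻¹ : SL) : Matrix (Fin 2) (Fin 2) F)
        + X.u * ((X.h⁻¹ : SL) : Matrix (Fin 2) (Fin 2) F) * X.y * ((X.h⁻¹ : SL) : Matrix (Fin 2) (Fin 2) F)
        - X.u * ((X.h⁻¹ : SL) : Matrix (Fin 2) (Fin 2) F) * X.v * X.r * ((X.h⁻¹ : SL) : Matrix (Fin 2) (Fin 2) F)
    v := - (((X.h⁻¹ : SL) : Matrix (Fin 2) (Fin 2) F) * X.v)
    y := ((X.h⁻¹ : SL) : Matrix (Fin 2) (Fin 2) F) * X.v * X.r * ((X.h⁻¹ : SL) : Matrix (Fin 2) (Fin 2) F)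
        - ((X.h⁻¹ : SL) : Matrix (Fin 2) (Fin 2) F) * X.y * ((X.h⁻¹ : SL) : Matrix (Fin 2) (Fin 2) F)
    r := - (X.r * ((X.h⁻¹ : SL) : Matrix (Fin 2) (Fin 2) F)) }

@[simp] theorem mul_h (X X' : B m) : (X * X').h = X.h * X'.h := rfl
@[simp] theorem mul_u (X X' : B m) : (X * X').u = X'.u + X.u * (X'.h : Matrix (Fin 2) (Fin 2) F) := rfl
@[simp] theorem mul_z (X X' : B m) : (X * X').z = X'.z + X.u * X'.v + X.z := rfl
@[simp] theorem mul_w (X X' : B m) : (X * X').w =
  X'.w + X.u * X'.y + X.z * X'.r + X.w * (X'.h : Matrix (Fin 2) (Fin 2) F) := rfl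
@[simp] theorem mul_v (X X' : B m) : (X * X').v = (X.h : Matrix (Fin 2) (Fin 2) F) * X'.v + X.v := rfl
@[simp] theorem mul_y (X X' : B m) : (X * X').y =
  (X.h : Matrix (Fin 2) (Fin 2) F) * X'.y + X.v * X'.r + X.y * (X'.h : Matrix (Fin 2) (Fin 2) F) := rfl
@[simp] theorem mul_r (X X' : B m) : (X * X').r = X'.r + X.r * (X'.h : Matrix (Fin 2) (Fin 2) F) := rfl
@[simp] theorem one_h : (1 : B m).h = 1 := rfl
@[simp] theorem one_u : (1 : B m).u = 0 := rfl
@[simp] theorem one_z : (1 : B m).z = 0 := rfl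
@[simp] theorem one_w : (1 : B m).w = 0 := rfl
@[simp] theorem one_v : (1 : B m).v = 0 := rfl
@[simp] theorem one_y : (1 : B m).y = 0 := rfl
@[simp] theorem one_r : (1 : B m).r = 0 := rfl

@[simp] theorem inv_h (X : B m) : (X⁻¹).h = X.h⁻¹ := rfl
theorem inv_u (X : B m) : (X⁻¹).u = - (X.u * ((X.h⁻¹ : SL) : Matrix (Fin 2) (Fin 2) F)) := rfl
theorem inv_z (X : B m) : (X⁻¹).z =
  - X.z + X.u * ((X.h⁻¹ : SL) : Matrix (Fin 2) (Fin 2) F) * X.v := rfl
theorem inv_w (X : B m) : (X⁻¹).w =
    - X.w * ((X.h⁻¹ : SL) : Matrix (Fin 2) (Fin 2) F)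
        + X.z * X.r * ((X.h⁻¹ : SL) : Matrix (Fin 2) (Fin 2) F)
        + X.u * ((X.h⁻¹ : SL) : Matrix (Fin 2) (Fin 2) F) * X.y * ((X.h⁻¹ : SL) : Matrix (Fin 2) (Fin 2) F)
        - X.u * ((X.h⁻¹ : SL) : Matrix (Fin 2) (Fin 2) F) * X.v * X.r * ((X.h⁻¹ : SL) : Matrix (Fin 2) (Fin 2) F) := rfl
theorem inv_v (X : B m) : (X⁻¹).v = - (((X.h⁻¹ : SL) : Matrix (Fin 2) (Fin 2) F) * X.v) := rfl
theorem inv_y (X : B m) : (X⁻¹).y =
    ((X.h⁻¹ : SL) : Matrix (Fin 2) (Fin 2) F) * X.v * X.r * ((X.h⁻¹ : SL) : Matrix (Fin 2) (Fin 2) F)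
        - ((X.h⁻¹ : SL) : Matrix (Fin 2) (Fin 2) F) * X.y * ((X.h⁻¹ : SL) : Matrix (Fin 2) (Fin 2) F) := rfl
theorem inv_r (X : B m) : (X⁻¹).r = - (X.r * ((X.h⁻¹ : SL) : Matrix (Fin 2) (Fin 2) F)) := rfl

theorem hinv (h : SL) : ((h⁻¹ : SL) : Matrix (Fin 2) (Fin 2) F) * (h : Matrix (Fin 2) (Fin 2) F) = 1 := by
  rw [← Matrix.SpecialLinearGroup.coe_mul, inv_mul_cancel, Matrix.SpecialLinearGroup.coe_one]

theorem b_assoc (X Y Z : B m) : X * Y * Z = X * (Y * Z) := by
  ext1
  · simp [mul_assoc]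
  · simp [Matrix.add_mul, Matrix.mul_add, Matrix.mul_assoc, add_assoc]
  · simp only [mul_z, mul_u, mul_v, Matrix.add_mul, Matrix.mul_add, Matrix.mul_assoc]
    abel
  all_goals
    simp only [mul_w, mul_z, mul_u, mul_v, mul_y, mul_r, mul_h, Matrix.SpecialLinearGroup.coe_mul,
      Matrix.add_mul, Matrix.mul_add, Matrix.mul_assoc]
    abel

theorem b_inv (X : B m) : X⁻¹ * X = 1 := by
  have e1 := hinv X.h
  ext1
  · simp
  all_goals
    simp only [mul_w, mul_z, mul_u, mul_v, mul_y, mul_r, mul_h, inv_h, inv_u, inv_z, inv_w, inv_v,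
      inv_y, inv_r, one_u, one_z, one_w, one_v, one_y, one_r,
      Matrix.add_mul, Matrix.sub_mul, Matrix.neg_mul, Matrix.mul_assoc, e1, Matrix.mul_one]
    abel

instance : Group (B m) := Group.ofLeftAxioms b_assoc (by intro X; ext1 <;> simp) b_inv

/-- elementary elements -/
def eH (h : SL) : B m := { h := h, u := 0, z := 0, w := 0, v := 0, y := 0, r := 0 }
/-- elementary elements -/
def eU (u : Matrix (Fin m) (Fin 2) F) : B m := { h := 1, u := u, z := 0, w := 0, v := 0, y := 0, r := 0 }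
/-- elementary elements -/
def eZ (z : Matrix (Fin m) (Fin m) F) : B m := { h := 1, u := 0, z := z, w := 0, v := 0, y := 0, r := 0 }
/-- elementary elements -/
def eW (w : Matrix (Fin m) (Fin 2) F) : B m := { h := 1, u := 0, z := 0, w := w, v := 0, y := 0, r := 0 }
/-- elementary elements -/
def eV (v : Matrix (Fin 2) (Fin m) F) : B m := { h := 1, u := 0, z := 0, w := 0, v := v, y := 0, r := 0 }
/-- elementary elements -/
def eY (y : Matrix (Fin 2) (Fin 2) F) : B m := { h := 1, u := 0, z := 0, w := 0, v := 0, y := y, r := 0 }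
/-- elementary elements -/
def eR (r : Matrix (Fin m) (Fin 2) F) : B m := { h := 1, u := 0, z := 0, w := 0, v := 0, y := 0, r := r }

theorem comm_mem {G : Type*} [Group G] {X Y Z : G} (h : X * Y = Z * Y * X) : Z ∈ commutator G := by
  have h1 : Z = X * Y * X⁻¹ * Y⁻¹ := by
    rw [h]
    group
  rw [h1]
  exact Subgroup.commutator_mem_commutator (Subgroup.mem_top _) (Subgroup.mem_top _)

/-! ### `SL₂` is perfect -/

/-- transvections -/
def t12 (x : F) : SL := ⟨!![1, x; 0, 1], by simp [Matrix.det_fin_two]⟩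
/-- transvections -/
def t21 (x : F) : SL := ⟨!![1, 0; x, 1], by simp [Matrix.det_fin_two]⟩
/-- a diagonal matrix -/
def dd : SL := ⟨!![2, 0; 0, 3], by simp [Matrix.det_fin_two]; decide⟩

theorem t12_coe (x : F) : (t12 x : Matrix (Fin 2) (Fin 2) F) = !![1, x; 0, 1] := rfl
theorem t21_coe (x : F) : (t21 x : Matrix (Fin 2) (Fin 2) F) = !![1, 0; x, 1] := rfl
theorem dd_coe : (dd : Matrix (Fin 2) (Fin 2) F) = !![2, 0; 0, 3] := rfl

theorem t12_mem (x : F) : t12 x ∈ commutator SL := by
  apply comm_mem (X := dd) (Y := t12 (2 * x))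
  apply Subtype.ext
  rw [Matrix.SpecialLinearGroup.coe_mul, Matrix.SpecialLinearGroup.coe_mul,
    Matrix.SpecialLinearGroup.coe_mul, t12_coe, t12_coe, dd_coe]
  revert x
  decide

theorem t21_mem (x : F) : t21 x ∈ commutator SL := by
  apply comm_mem (X := dd) (Y := t21 (2 * x))
  apply Subtype.ext
  rw [Matrix.SpecialLinearGroup.coe_mul, Matrix.SpecialLinearGroup.coe_mul,
    Matrix.SpecialLinearGroup.coe_mul, t21_coe, t21_coe, dd_coe]
  revert x
  decide

theorem sl_det (A : SL) : (A : Matrix (Fin 2) (Fin 2) F) 0 0 * (A : Matrix (Fin 2) (Fin 2) F) 1 1 -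
      (A : Matrix (Fin 2) (Fin 2) F) 0 1 * (A : Matrix (Fin 2) (Fin 2) F) 1 0 = 1 := by
  rw [← Matrix.det_fin_two]
  exact A.2

theorem mem_of_ne {A : SL} (hc : (A : Matrix (Fin 2) (Fin 2) F) 1 0 ≠ 0) : A ∈ commutator SL := by
  have hd := sl_det A
  have h : A = t12 (((A : Matrix (Fin 2) (Fin 2) F) 0 0 - 1) / (A : Matrix (Fin 2) (Fin 2) F) 1 0) *
      t21 ((A : Matrix (Fin 2) (Fin 2) F) 1 0) *
      t12 (((A : Matrix (Fin 2) (Fin 2) F) 1 1 - 1) / (A : Matrix (Fin 2) (Fin 2) F) 1 0) := by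
    apply Subtype.ext
    rw [Matrix.SpecialLinearGroup.coe_mul, Matrix.SpecialLinearGroup.coe_mul, t12_coe, t12_coe,
      t21_coe]
    rw [Matrix.mul_fin_two, Matrix.mul_fin_two]
    ext i j
    fin_cases i <;> fin_cases j
    · simp
      field_simp
      ring
    · simp
      field_simp
      linear_combination - hd
    · simp
    · simp
      field_simp
      ring
  rw [h]
  exact Subgroup.mul_mem _ (Subgroup.mul_mem _ (t12_mem _) (t21_mem _)) (t12_mem _)

theorem sl_perfect : commutator SL = ⊤ := by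
  rw [eq_top_iff]
  intro A _
  by_cases hc : (A : Matrix (Fin 2) (Fin 2) F) 1 0 = 0
  · have hd := sl_det A
    have h1 : A * t21 1 ∈ commutator SL := by
      apply mem_of_ne
      rw [Matrix.SpecialLinearGroup.coe_mul, t21_coe, Matrix.mul_apply, Fin.sum_univ_two]
      simp [hc]
      intro h0
      rw [hc, h0] at hd
      simp at hd
    have h2 := Subgroup.mul_mem _ h1 (Subgroup.inv_mem _ (t21_mem 1))
    simpa using h2
  · exact mem_of_ne hc

/-! ### `B m` is perfect -/

/-- the embedding of `SL₂` -/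
def eHom : SL →* B m where
  toFun := eH
  map_one' := rfl
  map_mul' X Y := by ext1 <;> simp [eH]

theorem eH_mem (h : SL) : (eH h : B m) ∈ commutator (B m) := by
  have h1 : h ∈ commutator SL := by rw [sl_perfect]; trivial
  have h2 : (eHom h : B m) ∈ (commutator SL).map (eHom (m := m)) := Subgroup.mem_map_of_mem _ h1
  rw [commutator_def, Subgroup.map_commutator] at h2
  exact Subgroup.commutator_mono le_top le_top h2

theorem neg_coe : (((-1 : SL) : SL) : Matrix (Fin 2) (Fin 2) F) = -1 := by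
  simp

theorem five {a b : ℕ} (u : Matrix (Fin a) (Fin b) F) : (2 : F) • u = -((2 : F) • u + u) := by
  ext i j
  simp only [Matrix.smul_apply, Matrix.neg_apply, Matrix.add_apply, smul_eq_mul]
  generalize u i j = x
  revert x
  decide

theorem eU_mem (u : Matrix (Fin m) (Fin 2) F) : (eU u : B m) ∈ commutator (B m) := by
  apply comm_mem (X := eH (-1)) (Y := eU ((2 : F) • u))
  ext1
  · simp [eH, eU]
  · simp only [mul_u, mul_h, eH, eU, neg_coe, Matrix.zero_mul, add_zero, zero_add,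
      Matrix.SpecialLinearGroup.coe_one, Matrix.mul_one, Matrix.mul_neg]
    exact five u
  all_goals simp [eH, eU]

theorem eR_mem (u : Matrix (Fin m) (Fin 2) F) : (eR u : B m) ∈ commutator (B m) := by
  apply comm_mem (X := eH (-1)) (Y := eR ((2 : F) • u))
  ext1
  · simp [eH, eR]
  · simp [eH, eR]
  · simp [eH, eR]
  · simp [eH, eR]
  · simp [eH, eR]
  · simp [eH, eR]
  · simp only [mul_r, mul_h, eH, eR, neg_coe, Matrix.zero_mul, add_zero, zero_add,
      Matrix.SpecialLinearGroup.coe_one, Matrix.mul_one, Matrix.mul_neg]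
    exact five u

theorem eW_mem (u : Matrix (Fin m) (Fin 2) F) : (eW u : B m) ∈ commutator (B m) := by
  apply comm_mem (X := eH (-1)) (Y := eW ((2 : F) • u))
  ext1
  · simp [eH, eW]
  · simp [eH, eW]
  · simp [eH, eW]
  · simp only [mul_w, mul_z, mul_u, mul_h, eH, eW, neg_coe, Matrix.zero_mul, Matrix.mul_zero,
      add_zero, zero_add, Matrix.SpecialLinearGroup.coe_one, Matrix.mul_one, Matrix.mul_neg]
    exact five u
  · simp [eH, eW]
  · simp [eH, eW]
  · simp [eH, eW]

theorem eV_mem (u : Matrix (Fin 2) (Fin m) F) : (eV u : B m) ∈ commutator (B m) := by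
  apply comm_mem (X := eH (-1)) (Y := eV ((2 : F) • u))
  ext1
  · simp [eH, eV]
  · simp [eH, eV]
  · simp [eH, eV]
  · simp [eH, eV]
  · simp only [mul_v, mul_h, eH, eV, neg_coe, Matrix.zero_mul, Matrix.mul_zero,
      add_zero, zero_add, Matrix.SpecialLinearGroup.coe_one, Matrix.one_mul, Matrix.neg_mul]
    have h := congrArg (fun x => -x) (five u)
    simp only [neg_neg] at h
    rw [h, add_comm]
  · simp [eH, eV]
  · simp [eH, eV]

theorem eZ_mul_mem (u : Matrix (Fin m) (Fin 2) F) (v : Matrix (Fin 2) (Fin m) F) :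
    (eZ (u * v) : B m) ∈ commutator (B m) := by
  apply comm_mem (X := eU u) (Y := eV v)
  ext1 <;> simp [eZ, eU, eV]

theorem eY_mul_mem (v : Matrix (Fin 2) (Fin m) F) (r : Matrix (Fin m) (Fin 2) F) :
    (eY (v * r) : B m) ∈ commutator (B m) := by
  apply comm_mem (X := eV v) (Y := eR r)
  ext1 <;> simp [eY, eV, eR]

theorem eZ_add (z z' : Matrix (Fin m) (Fin m) F) : (eZ (z + z') : B m) = eZ z * eZ z' := by
  ext1 <;> simp [eZ, add_comm]

theorem eY_add (z z' : Matrix (Fin 2) (Fin 2) F) : (eY (z + z') : B m) = eY z * eY z' := by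
  ext1 <;> simp [eY, add_comm]

theorem eZ_mem (z : Matrix (Fin m) (Fin m) F) : (eZ z : B m) ∈ commutator (B m) := by
  induction z using Matrix.induction_on' with
  | h_zero => exact Subgroup.one_mem _
  | h_add p q hp hq => rw [eZ_add]; exact Subgroup.mul_mem _ hp hq
  | h_std_basis i j x =>
    have h := eZ_mul_mem (Matrix.single i (0 : Fin 2) x) (Matrix.single (0 : Fin 2) j 1)
    rwa [Matrix.single_mul_single_same, mul_one] at h

theorem eY_mem (i0 : Fin m) (z : Matrix (Fin 2) (Fin 2) F) : (eY z : B m) ∈ commutator (B m) := by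
  induction z using Matrix.induction_on' with
  | h_zero => exact Subgroup.one_mem _
  | h_add p q hp hq => rw [eY_add]; exact Subgroup.mul_mem _ hp hq
  | h_std_basis i j x =>
    have h := eY_mul_mem (Matrix.single i i0 x) (Matrix.single i0 j 1)
    rwa [Matrix.single_mul_single_same, mul_one] at h

theorem decomp (X : B m) : X =
    eR (X.r * ((X.h⁻¹ : SL) : Matrix (Fin 2) (Fin 2) F)) * eV X.v *
      eY (X.y * ((X.h⁻¹ : SL) : Matrix (Fin 2) (Fin 2) F)) * eZ X.z *
      eU (X.u * ((X.h⁻¹ : SL) : Matrix (Fin 2) (Fin 2) F)) *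
      eW (X.w * ((X.h⁻¹ : SL) : Matrix (Fin 2) (Fin 2) F)) * eH X.h := by
  have e1 := hinv X.h
  ext1 <;>
  simp [-Matrix.SpecialLinearGroup.coe_inv, eR, eV, eY, eZ, eU, eW, eH, Matrix.mul_assoc, e1]

theorem b_perfect (i0 : Fin m) : commutator (B m) = ⊤ := by
  rw [eq_top_iff]
  intro X _
  rw [decomp X]
  refine Subgroup.mul_mem _ (Subgroup.mul_mem _ (Subgroup.mul_mem _ (Subgroup.mul_mem _
    (Subgroup.mul_mem _ (Subgroup.mul_mem _ (eR_mem _) (eV_mem _)) (eY_mem i0 _)) (eZ_mem _))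
    (eU_mem _)) (eW_mem _)) (eH_mem _)

/-! ### the centre is trivial -/

theorem cancel_left {a b c : ℕ} (i0 : Fin a) {M M' : Matrix (Fin b) (Fin c) F}
    (h : ∀ u : Matrix (Fin a) (Fin b) F, u * M = u * M') : M = M' := by
  ext i j
  have h1 := congrFun (congrFun (h (Matrix.single i0 i 1)) i0) j
  simpa using h1

theorem cancel_right {a b c : ℕ} (i0 : Fin c) {M M' : Matrix (Fin a) (Fin b) F}
    (h : ∀ u : Matrix (Fin b) (Fin c) F, M * u = M' * u) : M = M' := by
  ext i j
  have h1 := congrFun (congrFun (h (Matrix.single j i0 1)) i) i0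
  simpa using h1

theorem b_center (i0 : Fin m) : Subgroup.center (B m) = ⊥ := by
  rw [eq_bot_iff]
  intro X hX
  rw [Subgroup.mem_center_iff] at hX
  have hh : X.h = 1 := by
    apply Subtype.ext
    apply cancel_left i0
    intro u
    have h1 := congrArg B.u (hX (eU u))
    simp only [mul_u, eU, Matrix.SpecialLinearGroup.coe_one, Matrix.mul_one] at h1
    rw [Matrix.SpecialLinearGroup.coe_one, Matrix.mul_one]
    have h2 : X.u + u * (X.h : Matrix (Fin 2) (Fin 2) F) = X.u + u := by rw [h1, add_comm]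
    exact add_left_cancel h2
  have hv : X.v = 0 := by
    apply cancel_left i0
    intro u
    have h1 := congrArg B.z (hX (eU u))
    simp [eU] at h1
    simpa using h1
  have hy : X.y = 0 := by
    apply cancel_left i0
    intro u
    have h1 := congrArg B.w (hX (eU u))
    simp [eU] at h1
    simpa using h1
  have hz : X.z = 0 := by
    apply cancel_right (0 : Fin 2)
    intro u
    have h1 := congrArg B.w (hX (eR u))
    simp [eR] at h1
    simpa using h1
  have hu : X.u = 0 := by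
    apply cancel_right i0
    intro u
    have h1 := congrArg B.z (hX (eV u))
    simp [eV] at h1
    simpa using h1
  have hr : X.r = 0 := by
    apply cancel_left (0 : Fin 2)
    intro u
    have h1 := congrArg B.y (hX (eV u))
    simp [eV] at h1
    simpa using h1
  have hw : X.w = 0 := by
    have h1 := congrArg B.w (hX (eH (-1)))
    simp only [mul_w, eH, hu, hz, hy, hr, Matrix.zero_mul, Matrix.mul_zero, add_zero, zero_add,
      neg_coe, Matrix.mul_neg, Matrix.mul_one] at h1
    ext i j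
    have h2 := congrFun (congrFun h1 i) j
    simp only [Matrix.neg_apply] at h2
    rw [Matrix.zero_apply]
    generalize X.w i j = x at h2 ⊢
    revert h2
    revert x
    decide
  rw [Subgroup.mem_bot]
  ext1 <;> simp [hh, hv, hy, hz, hu, hr, hw]

/-! ### counting -/

theorem card_mat (a b : ℕ) : Nat.card (Matrix (Fin a) (Fin b) F) = 5 ^ (a * b) := by
  have h : Nat.card (Matrix (Fin a) (Fin b) F) = Nat.card (Fin a → Fin b → F) := rfl
  rw [h, Nat.card_fun, Nat.card_fun, Nat.card_zmod, Nat.card_fin, Nat.card_fin, ← pow_mul, mul_comm]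

/-- the entries -/
def ent (X : B m) : Matrix (Fin 2) (Fin 2) F × (Matrix (Fin m) (Fin 2) F × (Matrix (Fin m) (Fin m) F ×
    (Matrix (Fin m) (Fin 2) F × (Matrix (Fin 2) (Fin m) F × (Matrix (Fin 2) (Fin 2) F ×
    Matrix (Fin m) (Fin 2) F))))) :=
  (X.h, X.u, X.z, X.w, X.v, X.y, X.r)

theorem ent_inj : Function.Injective (ent (m := m)) := by
  intro X Y h
  simp only [ent, Prod.mk.injEq] at h
  obtain ⟨h1, h2, h3, h4, h5, h6, h7⟩ := h
  ext1
  · exact Subtype.ext h1
  all_goals assumption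

instance : Finite (B m) := Finite.of_injective ent ent_inj

theorem card_B_le : Nat.card (B m) ≤ 5 ^ (m * m) * 5 ^ (8 * m + 8) := by
  refine (Nat.card_le_card_of_injective ent ent_inj).trans ?_
  simp only [Nat.card_prod, card_mat]
  simp only [← pow_add]
  exact le_of_eq (congrArg (fun n => 5 ^ n) (by ring))

theorem le_card_B : 5 ^ (m * m) ≤ Nat.card (B m) := by
  rw [← card_mat m m]
  apply Nat.card_le_card_of_injective (eZ (m := m))
  intro z z' h
  exact congrArg B.z h

/-- the obstruction to commuting with `X` -/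
def phi (X : B m) : (Matrix (Fin m) (Fin m) F × Matrix (Fin m) (Fin 2) F) →+ Matrix (Fin m) (Fin 2) F where
  toFun p := p.1 * X.r + p.2 * ((X.h : Matrix (Fin 2) (Fin 2) F) - 1)
  map_zero' := by simp
  map_add' p q := by
    simp only [Prod.fst_add, Prod.snd_add, Matrix.add_mul]
    abel

/-- elements of the abelian normal subgroup -/
def tau (p : Matrix (Fin m) (Fin m) F × Matrix (Fin m) (Fin 2) F) : B m :=
  { h := 1, u := 0, z := p.1, w := p.2, v := 0, y := 0, r := 0 }

theorem tau_comm {X : B m} {p : Matrix (Fin m) (Fin m) F × Matrix (Fin m) (Fin 2) F}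
    (hp : phi X p = 0) : tau p * X = X * tau p := by
  have h1 : p.1 * X.r + p.2 * ((X.h : Matrix (Fin 2) (Fin 2) F) - 1) = 0 := hp
  rw [Matrix.mul_sub, Matrix.mul_one] at h1
  have h2 : p.1 * X.r + p.2 * (X.h : Matrix (Fin 2) (Fin 2) F) = p.2 := by
    rw [← sub_eq_zero, ← h1]
    abel
  ext1
  · simp [tau]
  · simp [tau]
  · simp [tau, add_comm]
  · simp only [mul_w, tau, Matrix.zero_mul, Matrix.mul_zero, add_zero,
      Matrix.SpecialLinearGroup.coe_one, Matrix.mul_one]
    rw [add_assoc, h2, add_comm]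
  · simp [tau]
  · simp [tau]
  · simp [tau]

theorem le_card_centralizer (X : B m) :
    5 ^ (m * m) ≤ Nat.card (Subgroup.centralizer ({X} : Set (B m))) := by
  have h1 : 5 ^ (m * m) ≤ Nat.card (phi X).ker := by
    have h2 := AddSubgroup.card_mul_index (phi X).ker
    rw [AddSubgroup.index_ker, Nat.card_prod, card_mat, card_mat] at h2
    have h3 : Nat.card (phi X).range ≤ 5 ^ (m * 2) := by
      rw [← card_mat m 2]
      exact Nat.card_le_card_of_injective _ Subtype.val_injective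
    have h4 : 5 ^ (m * m) * 5 ^ (m * 2) ≤ Nat.card (phi X).ker * 5 ^ (m * 2) := by
      rw [← h2]
      exact Nat.mul_le_mul_left _ h3
    exact Nat.le_of_mul_le_mul_right h4 (by positivity)
  refine h1.trans ?_
  apply Nat.card_le_card_of_injective
    (fun p : (phi X).ker => (⟨tau p.1, by
      rw [Subgroup.mem_centralizer_singleton_iff]
      exact tau_comm p.2⟩ : Subgroup.centralizer ({X} : Set (B m))))
  intro p q h
  have h5 : tau p.1 = tau q.1 := congrArg Subtype.val h
  exact Subtype.ext (Prod.ext (congrArg B.z h5) (congrArg B.w h5))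

theorem card_class_mul {G : Type*} [Group G] [Finite G] (x : G) :
    Nat.card {y : G // IsConj x y} * Nat.card (Subgroup.centralizer ({x} : Set G)) = Nat.card G := by
  rw [Subgroup.nat_card_centralizer_nat_card_stabilizer]
  have h1 := Subgroup.index_mul_card (MulAction.stabilizer (ConjAct G) x)
  rw [MulAction.index_stabilizer] at h1
  have h2 : (MulAction.orbit (ConjAct G) x).ncard = Nat.card {y : G // IsConj x y} := by
    rw [← Nat.card_coe_set_eq]
    apply Nat.card_congr
    apply Equiv.subtypeEquivRight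
    intro y
    rw [ConjAct.mem_orbit_conjAct]
    exact ⟨fun h => h.symm, fun h => h.symm⟩
  rw [h2] at h1
  exact h1

theorem class_le (X : B m) : Nat.card {Y : B m // IsConj X Y} ≤ 5 ^ (8 * m + 8) := by
  have h1 := card_class_mul X
  have h2 := le_card_centralizer X
  have h3 := card_B_le (m := m)
  have h4 : Nat.card {Y : B m // IsConj X Y} * 5 ^ (m * m) ≤ 5 ^ (8 * m + 8) * 5 ^ (m * m) := by
    calc _ ≤ Nat.card {Y : B m // IsConj X Y} * Nat.card (Subgroup.centralizer ({X} : Set (B m))) :=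
          Nat.mul_le_mul_left _ h2
      _ = Nat.card (B m) := h1
      _ ≤ _ := by rw [mul_comm (5 ^ (8 * m + 8))]; exact h3
  exact Nat.le_of_mul_le_mul_right h4 (by positivity)

end Pool.Agent.H159B.BFC
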